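import Mathlib

/-!
Cubes in loops whose multiplication group is nilpotent (the file LoopCubes with loops and groups in
an arbitrary universe).
-/

set_option autoImplicit false
set_option linter.unusedSectionVars false

namespace Pool.Agent.P09.LoopCubesU

universe uu

section Diff

variable {ι : Type} [DecidableEq ι] {G : Type uu} [Group G]

/-- difference in direction `i` of a function on the cube `ι → Bool`. -/
def dif (i : ι) (F : (ι → Bool) → G) : (ι → Bool) → G :=
  fun T => (F (Function.update T i false))⁻¹ * F (Function.update T i true)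

/-- iterated difference. -/
def difs : List ι → ((ι → Bool) → G) → ((ι → Bool) → G)
  | [], F => F
  | i :: l, F => difs l (dif i F)

/-- the function equal to `g` on the upper face given by `l` and to `1` elsewhere. -/
def face (l : List ι) (g : G) : (ι → Bool) → G :=
  fun T => if ∀ i ∈ l, T i = true then g else 1

/-- group generated by the face functions of codimension at most `k`. -/
def E (ι : Type) (G : Type uu) [Group G] (k : ℕ) : Subgroup ((ι → Bool) → G) :=
  Subgroup.closure {F | ∃ (l : List ι) (g : G), l.length ≤ k ∧ F = face l g}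

theorem face_mem_E {k : ℕ} {l : List ι} (hl : l.length ≤ k) (g : G) :
    face l g ∈ E ι G k :=
  Subgroup.subset_closure ⟨l, g, hl, rfl⟩

theorem E_mono {k k' : ℕ} (h : k ≤ k') : E ι G k ≤ E ι G k' := by
  apply Subgroup.closure_mono
  rintro F ⟨l, g, hl, rfl⟩
  exact ⟨l, g, hl.trans h, rfl⟩

theorem const_mem_E {k : ℕ} (g : G) : (fun _ : ι → Bool => g) ∈ E ι G k := by
  have : (fun _ : ι → Bool => g) = face ([] : List ι) g := by
    funext T; simp [face]
  rw [this]
  exact face_mem_E (by simp) g

/-- filtrations of the group of functions on the cube. -/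
structure Filt (N : ℕ → Set ((ι → Bool) → G)) : Prop where
  one : ∀ r, 1 ∈ N r
  inv : ∀ r F, F ∈ N r → F⁻¹ ∈ N r
  mul : ∀ r F F', F ∈ N r → F' ∈ N r → F * F' ∈ N r
  anti : ∀ r F, F ∈ N (r + 1) → F ∈ N r
  comm : ∀ r s F F', F ∈ N r → F' ∈ N s → F * F' * F⁻¹ * F'⁻¹ ∈ N (r + s)
  lo : ∀ (i : ι) r F, F ∈ N r → (fun T => F (Function.update T i false)) ∈ N r
  hi : ∀ (i : ι) r F, F ∈ N r → (fun T => F (Function.update T i true)) ∈ N r

namespace Filt

variable {N : ℕ → Set ((ι → Bool) → G)}

theorem mem_zero (hN : Filt N) {r : ℕ} {F : (ι → Bool) → G} (hF : F ∈ N r) : F ∈ N 0 := by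
  induction r with
  | zero => exact hF
  | succ r ih => exact ih (hN.anti _ _ hF)

theorem conj (hN : Filt N) {r : ℕ} {a b : (ι → Bool) → G} (ha : a ∈ N r) (hb : b ∈ N 0) :
    b * a * b⁻¹ ∈ N r := by
  have h1 := hN.comm 0 r b a hb ha
  rw [Nat.zero_add] at h1
  have h2 := hN.mul _ _ _ h1 ha
  have h3 : b * a * b⁻¹ * a⁻¹ * a = b * a * b⁻¹ := by group
  rwa [h3] at h2

theorem conj' (hN : Filt N) {r : ℕ} {a b : (ι → Bool) → G} (ha : a ∈ N r) (hb : b ∈ N 0) :
    b⁻¹ * a * b ∈ N r := by
  have h := hN.conj ha (hN.inv _ _ hb)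
  rwa [inv_inv] at h

/-- one step in direction `i` -/
def step (N : ℕ → Set ((ι → Bool) → G)) (i : ι) : ℕ → Set ((ι → Bool) → G) :=
  fun r => {F | F ∈ N r ∧ dif i F ∈ N (r + 1)}

theorem dif_mul (i : ι) (F F' : (ι → Bool) → G) :
    dif i (F * F') = ((fun T => F' (Function.update T i false))⁻¹ * dif i F *
      (fun T => F' (Function.update T i false))) * dif i F' := by
  funext T
  simp only [dif, Pi.mul_apply, Pi.inv_apply]
  group

theorem dif_inv (i : ι) (F : (ι → Bool) → G) :
    dif i (F⁻¹) = (fun T => F (Function.update T i false)) * (dif i F)⁻¹ *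
      (fun T => F (Function.update T i false))⁻¹ := by
  funext T
  simp only [dif, Pi.mul_apply, Pi.inv_apply]
  group

theorem dif_comm_identity {K : Type uu} [Group K] (a b p q : K) :
    (a * b * a⁻¹ * b⁻¹)⁻¹ * ((a * p) * (b * q) * (a * p)⁻¹ * (b * q)⁻¹) =
    (a * b * a⁻¹ * b⁻¹)⁻¹ * ((a * (p * (b * q) * p⁻¹ * (b * q)⁻¹) * a⁻¹) *
      ((a * b) * (q * a⁻¹ * q⁻¹ * a) * (a * b)⁻¹)) * (a * b * a⁻¹ * b⁻¹) := by
  group

theorem step_filt (hN : Filt N) (i : ι) : Filt (step N i) where
  one r := by
    refine ⟨hN.one r, ?_⟩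
    have : dif i (1 : (ι → Bool) → G) = 1 := by funext T; simp [dif]
    rw [this]; exact hN.one _
  inv r F hF := by
    refine ⟨hN.inv _ _ hF.1, ?_⟩
    rw [dif_inv]
    exact hN.conj (hN.inv _ _ hF.2) (hN.lo i 0 F (hN.mem_zero hF.1))
  mul r F F' hF hF' := by
    refine ⟨hN.mul _ _ _ hF.1 hF'.1, ?_⟩
    rw [dif_mul]
    exact hN.mul _ _ _ (hN.conj' hF.2 (hN.lo i 0 F' (hN.mem_zero hF'.1))) hF'.2
  anti r F hF := ⟨hN.anti _ _ hF.1, hN.anti _ _ hF.2⟩
  comm r s F F' hF hF' := by
    refine ⟨hN.comm _ _ _ _ hF.1 hF'.1, ?_⟩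
    set a : (ι → Bool) → G := fun T => F (Function.update T i false) with ha
    set b : (ι → Bool) → G := fun T => F' (Function.update T i false) with hb
    have haN : a ∈ N r := hN.lo i r F hF.1
    have hbN : b ∈ N s := hN.lo i s F' hF'.1
    set p := dif i F with hp
    set q := dif i F' with hq
    have hpN : p ∈ N (r + 1) := hF.2
    have hqN : q ∈ N (s + 1) := hF'.2
    have key : dif i (F * F' * F⁻¹ * F'⁻¹) =
        (a * b * a⁻¹ * b⁻¹)⁻¹ * ((a * p) * (b * q) * (a * p)⁻¹ * (b * q)⁻¹) := by
      funext T
      simp only [dif, Pi.mul_apply, Pi.inv_apply, ha, hb, hp, hq]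
      group
    rw [key, dif_comm_identity]
    have ha0 : a ∈ N 0 := hN.mem_zero haN
    have hb0 : b ∈ N 0 := hN.mem_zero hbN
    have h1 : p * (b * q) * p⁻¹ * (b * q)⁻¹ ∈ N (r + s + 1) := by
      have := hN.comm (r+1) s p (b * q) hpN (hN.mul _ _ _ hbN (hN.anti _ _ hqN))
      have e : r + 1 + s = r + s + 1 := by ring
      rwa [e] at this
    have h2 : q * a⁻¹ * q⁻¹ * a ∈ N (r + s + 1) := by
      have := hN.comm (s+1) r q a⁻¹ hqN (hN.inv _ _ haN)
      have e : s + 1 + r = r + s + 1 := by ring
      rw [e, inv_inv] at this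
      exact this
    have h3 := hN.mul _ _ _ (hN.conj h1 ha0) (hN.conj h2 (hN.mul _ _ _ ha0 hb0))
    have h4 : a * b * a⁻¹ * b⁻¹ ∈ N 0 := hN.mem_zero (hN.comm _ _ _ _ haN hbN)
    exact hN.conj' h3 h4
  lo j r F hF := by
    refine ⟨hN.lo j r F hF.1, ?_⟩
    by_cases hij : i = j
    · subst hij
      have : dif i (fun T => F (Function.update T i false)) = 1 := by
        funext T; simp [dif]
      rw [this]; exact hN.one _
    · have : dif i (fun T => F (Function.update T j false)) =
          fun T => (dif i F) (Function.update T j false) := by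
        funext T
        simp only [dif]
        rw [Function.update_comm hij, Function.update_comm hij]
      rw [this]; exact hN.lo j _ _ hF.2
  hi j r F hF := by
    refine ⟨hN.hi j r F hF.1, ?_⟩
    by_cases hij : i = j
    · subst hij
      have : dif i (fun T => F (Function.update T i true)) = 1 := by
        funext T; simp [dif]
      rw [this]; exact hN.one _
    · have : dif i (fun T => F (Function.update T j true)) =
          fun T => (dif i F) (Function.update T j true) := by
        funext T
        simp only [dif]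
        rw [Function.update_comm hij, Function.update_comm hij]
      rw [this]; exact hN.hi j _ _ hF.2

/-- iterate the step over a list of directions. -/
def steps (N : ℕ → Set ((ι → Bool) → G)) : List ι → ℕ → Set ((ι → Bool) → G)
  | [] => N
  | i :: l => step (steps N l) i

theorem steps_filt (hN : Filt N) (l : List ι) : Filt (steps N l) := by
  induction l with
  | nil => exact hN
  | cons i l ih => exact step_filt ih i

theorem difs_mem_of_steps (l : List ι) : ∀ (r : ℕ) (F : (ι → Bool) → G), F ∈ steps N l r →
    difs l F ∈ N (r + l.length) := by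
  induction l with
  | nil => intro r F hF; simpa [difs, steps] using hF
  | cons i l ih =>
    intro r F hF
    have := ih (r+1) (dif i F) hF.2
    simp only [difs, List.length_cons]
    have e : r + 1 + l.length = r + (l.length + 1) := by ring
    rwa [e] at this

end Filt

/-- the filtration of a nilpotent group used here -/
def cf (G : Type uu) [Group G] (k c : ℕ) (r : ℕ) : Set G :=
  {g | ∀ j, 2 ^ j * k < r → g ∈ Subgroup.upperCentralSeries G (c - 1 - j)}

theorem cf_filt (k c : ℕ) (hc : Subgroup.upperCentralSeries G c = ⊤) :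
    Filt (ι := ι) (fun r => {F : (ι → Bool) → G | ∀ T, F T ∈ cf G k c r}) where
  one r T j _ := Subgroup.one_mem _
  inv r F hF T j hj := Subgroup.inv_mem _ (hF T j hj)
  mul r F F' hF hF' T j hj := Subgroup.mul_mem _ (hF T j hj) (hF' T j hj)
  anti r F hF T j hj := hF T j (by omega)
  comm r s F F' hF hF' T := by
    intro j hj
    simp only [Pi.mul_apply, Pi.inv_apply]
    -- general fact
    have step1 : ∀ (n : ℕ) (x y : G), x ∈ Subgroup.upperCentralSeries G n →
        x * y * x⁻¹ * y⁻¹ ∈ Subgroup.upperCentralSeries G (n - 1) := by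
      intro n x y hx
      cases n with
      | zero =>
        rw [Subgroup.upperCentralSeries_zero, Subgroup.mem_bot] at hx
        subst hx
        simp
      | succ n => exact (Subgroup.mem_upperCentralSeries_succ_iff.1 hx) y
    have step2 : ∀ (n : ℕ) (x y : G), y ∈ Subgroup.upperCentralSeries G n →
        x * y * x⁻¹ * y⁻¹ ∈ Subgroup.upperCentralSeries G (n - 1) := by
      intro n x y hy
      have := Subgroup.inv_mem _ (step1 n y x hy)
      have e : (y * x * y⁻¹ * x⁻¹)⁻¹ = x * y * x⁻¹ * y⁻¹ := by group
      rwa [e] at this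
    cases j with
    | zero =>
      have : F T ∈ Subgroup.upperCentralSeries G c := by rw [hc]; trivial
      exact step1 c _ _ this
    | succ j =>
      have hlt : 2 ^ j * k < r ∨ 2 ^ j * k < s := by
        by_contra hcon
        push Not at hcon
        have : 2 ^ (j+1) * k = 2 ^ j * k + 2 ^ j * k := by ring
        omega
      have e : c - 1 - (j + 1) = c - 1 - j - 1 := by omega
      rw [e]
      rcases hlt with h | h
      · exact step1 _ _ _ (hF T j h)
      · exact step2 _ _ _ (hF' T j h)
  lo i r F hF T := hF _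
  hi i r F hF T := hF _

/-- bound for the number of differences killing `E ι G k`. -/
def Dbd (k c : ℕ) : ℕ := 2 ^ c * k + 1

theorem face_mem_steps (k c : ℕ) (hc : Subgroup.upperCentralSeries G c = ⊤) (l : List ι) :
    ∀ (r : ℕ) (s : List ι) (g : G), s.length + r ≤ k →
    face s g ∈ Filt.steps (ι := ι) (fun r => {F : (ι → Bool) → G | ∀ T, F T ∈ cf G k c r}) l r := by
  induction l with
  | nil =>
    intro r s g hr T j hj
    exfalso
    have : 1 ≤ 2 ^ j := Nat.one_le_two_pow
    nlinarith
  | cons i l ih =>
    intro r s g hr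
    refine ⟨ih r s g hr, ?_⟩
    have hf : Filt (Filt.steps (ι := ι)
        (fun r => {F : (ι → Bool) → G | ∀ T, F T ∈ cf G k c r}) l) :=
      Filt.steps_filt (cf_filt k c hc) l
    by_cases his : i ∈ s
    · have : dif i (face s g) = face (s.filter (fun j => j ≠ i)) g := by
        funext T
        simp only [dif, face]
        have h1 : ¬ (∀ j ∈ s, (Function.update T i false) j = true) := by
          intro h
          have := h i his
          simp at this
        have h2 : (∀ j ∈ s, (Function.update T i true) j = true) ↔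
            (∀ j ∈ s.filter (fun j => j ≠ i), T j = true) := by
          constructor
          · intro h j hj
            rw [List.mem_filter] at hj
            have hne : j ≠ i := by simpa using hj.2
            have := h j hj.1
            rwa [Function.update_of_ne hne] at this
          · intro h j hj
            by_cases hji : j = i
            · subst hji; simp
            · rw [Function.update_of_ne hji]
              exact h j (List.mem_filter.2 ⟨hj, by simpa using hji⟩)
        simp only [h1, if_false, inv_one, one_mul]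
        by_cases h3 : ∀ j ∈ s, (Function.update T i true) j = true
        · rw [if_pos h3, if_pos (h2.1 h3)]
        · rw [if_neg h3, if_neg (fun h => h3 (h2.2 h))]
      rw [this]
      apply ih
      have hlt : (s.filter (fun j => j ≠ i)).length < s.length := by
        apply List.length_filter_lt_length_iff_exists.2
        exact ⟨i, his, by simp⟩
      omega
    · have : dif i (face s g) = 1 := by
        funext T
        simp only [dif, face, Pi.one_apply]
        have h2 : ∀ b : Bool, (∀ j ∈ s, (Function.update T i b) j = true) ↔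
            (∀ j ∈ s, T j = true) := by
          intro b
          constructor
          · intro h j hj
            have hne : j ≠ i := fun h' => his (h' ▸ hj)
            have := h j hj
            rwa [Function.update_of_ne hne] at this
          · intro h j hj
            have hne : j ≠ i := fun h' => his (h' ▸ hj)
            rw [Function.update_of_ne hne]
            exact h j hj
        by_cases h3 : ∀ j ∈ s, T j = true
        · rw [if_pos ((h2 false).2 h3), if_pos ((h2 true).2 h3)]; simp
        · rw [if_neg (fun h => h3 ((h2 false).1 h)), if_neg (fun h => h3 ((h2 true).1 h))]; simp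
      rw [this]
      exact hf.one _

theorem E_le_steps (k c : ℕ) (hc : Subgroup.upperCentralSeries G c = ⊤) (l : List ι)
    (F : (ι → Bool) → G) (hF : F ∈ E ι G k) :
    F ∈ Filt.steps (ι := ι) (fun r => {F : (ι → Bool) → G | ∀ T, F T ∈ cf G k c r}) l 0 := by
  have hf : Filt (Filt.steps (ι := ι)
      (fun r => {F : (ι → Bool) → G | ∀ T, F T ∈ cf G k c r}) l) :=
    Filt.steps_filt (cf_filt k c hc) l
  induction hF using Subgroup.closure_induction with
  | mem F hF =>
    obtain ⟨s, g, hs, rfl⟩ := hF
    exact face_mem_steps k c hc l 0 s g (by omega)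
  | one => exact hf.one _
  | mul F F' _ _ h h' => exact hf.mul _ _ _ h h'
  | inv F _ h => exact hf.inv _ _ h

theorem difs_E_eq_one (k c : ℕ) (hc : Subgroup.upperCentralSeries G c = ⊤) (l : List ι)
    (hl : Dbd k c ≤ l.length) (F : (ι → Bool) → G) (hF : F ∈ E ι G k) (T : ι → Bool) :
    difs l F T = 1 := by
  have h := Filt.difs_mem_of_steps l 0 F (E_le_steps k c hc l F hF)
  have h2 := h T c (by unfold Dbd at hl; omega)
  have e : c - 1 - c = 0 := by omega
  rw [e, Subgroup.upperCentralSeries_zero, Subgroup.mem_bot] at h2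
  exact h2

end Diff

section Comm

variable {ι κ : Type} [DecidableEq ι] [DecidableEq κ] {M : Type uu} [CommGroup M] (U : Subgroup M)

theorem dif_mul_comm (i : ι) (z z' : (ι → Bool) → M) : dif i (z * z') = dif i z * dif i z' := by
  funext T
  simp only [dif, Pi.mul_apply, mul_inv]
  exact mul_mul_mul_comm _ _ _ _

theorem dif_inv_comm (i : ι) (z : (ι → Bool) → M) : dif i (z⁻¹) = (dif i z)⁻¹ := by
  funext T
  simp only [dif, Pi.inv_apply, mul_inv]

theorem difs_mul_comm (l : List ι) : ∀ (z z' : (ι → Bool) → M),
    difs l (z * z') = difs l z * difs l z' := by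
  induction l with
  | nil => intro z z'; rfl
  | cons i l ih => intro z z'; simp only [difs]; rw [dif_mul_comm, ih]

theorem difs_inv_comm (l : List ι) : ∀ (z : (ι → Bool) → M),
    difs l (z⁻¹) = (difs l z)⁻¹ := by
  induction l with
  | nil => intro z; rfl
  | cons i l ih => intro z; simp only [difs]; rw [dif_inv_comm, ih]

theorem difs_one (l : List ι) : difs l (1 : (ι → Bool) → M) = 1 := by
  induction l with
  | nil => rfl
  | cons i l ih =>
    have : dif i (1 : (ι → Bool) → M) = 1 := by funext T; simp [dif]
    simp only [difs]; rw [this, ih]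

theorem difs_mem_of_mem (l : List ι) : ∀ (z : (ι → Bool) → M), (∀ T, z T ∈ U) →
    ∀ T, difs l z T ∈ U := by
  induction l with
  | nil => intro z h; exact h
  | cons i l ih =>
    intro z h
    exact ih _ (fun T => U.mul_mem (U.inv_mem (h _)) (h _))

/-- degree less than `K` modulo `U` -/
def DegLT (K : ℕ) (z : (ι → Bool) → M) : Prop :=
  ∀ l : List ι, K ≤ l.length → ∀ T, difs l z T ∈ U

/-- explicit generated group of functions of degree `< K` -/
def W (ι : Type) (M : Type uu) [CommGroup M] (K : ℕ) : Subgroup ((ι → Bool) → M) :=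
  Subgroup.closure {F | ∃ (l : List ι) (g : M), l.length < K ∧ F = face l g}

theorem W_mul_face (K : ℕ) (i : ι) (w : (ι → Bool) → M) (hw : w ∈ W ι M K) :
    (fun T => if T i = true then w T else 1) ∈ W ι M (K + 1) := by
  induction hw using Subgroup.closure_induction with
  | mem F hF =>
    obtain ⟨s, g, hs, rfl⟩ := hF
    apply Subgroup.subset_closure
    refine ⟨i :: s, g, by simpa using hs, ?_⟩
    funext T
    simp only [face, List.mem_cons, forall_eq_or_imp]
    by_cases h1 : T i = true <;> by_cases h2 : ∀ a ∈ s, T a = true <;> simp [h1, h2]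
  | one =>
    have : (fun T : ι → Bool => if T i = true then (1 : (ι → Bool) → M) T else 1) = 1 := by
      funext T; simp
    rw [this]; exact Subgroup.one_mem _
  | mul F F' _ _ h h' =>
    have : (fun T : ι → Bool => if T i = true then (F * F') T else 1) =
      (fun T : ι → Bool => if T i = true then F T else 1) *
      (fun T : ι → Bool => if T i = true then F' T else 1) := by
      funext T; by_cases h1 : T i = true <;> simp [h1]
    rw [this]; exact Subgroup.mul_mem _ h h'
  | inv F _ h =>
    have : (fun T : ι → Bool => if T i = true then (F⁻¹) T else 1) =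
      (fun T : ι → Bool => if T i = true then F T else 1)⁻¹ := by
      funext T; by_cases h1 : T i = true <;> simp [h1]
    rw [this]; exact Subgroup.inv_mem _ h

theorem W_mono {K K' : ℕ} (h : K ≤ K') : W ι M K ≤ W ι M K' := by
  apply Subgroup.closure_mono
  rintro F ⟨l, g, hl, rfl⟩
  exact ⟨l, g, lt_of_lt_of_le hl h, rfl⟩

theorem difs_lo (l : List ι) (i : ι) : ∀ (z : (ι → Bool) → M), (∀ T, difs l z T ∈ U) →
    ∀ T, difs l (fun T => z (Function.update T i false)) T ∈ U := by
  induction l with
  | nil => intro z h T; exact h _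
  | cons j l ih =>
    intro z h
    by_cases hij : j = i
    · subst hij
      have : dif j (fun T => z (Function.update T j false)) = 1 := by
        funext T; simp [dif]
      simp only [difs]
      rw [this, difs_one]
      intro T; exact U.one_mem
    · have : dif j (fun T => z (Function.update T i false)) =
          fun T => (dif j z) (Function.update T i false) := by
        funext T
        simp only [dif]
        rw [Function.update_comm hij, Function.update_comm hij]
      simp only [difs]
      rw [this]
      exact ih _ h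

theorem exists_W_aux (s : Finset ι) : ∀ (K : ℕ) (z : (ι → Bool) → M),
    (∀ T T' : ι → Bool, (∀ i ∈ s, T i = T' i) → z T = z T') → DegLT U K z →
    ∃ w ∈ W ι M K, ∀ T, (w T)⁻¹ * z T ∈ U := by
  induction s using Finset.induction_on with
  | empty =>
    intro K z hz hd
    cases K with
    | zero =>
      refine ⟨1, Subgroup.one_mem _, fun T => ?_⟩
      have := hd [] (by simp) T
      simpa [difs] using this
    | succ K =>
      refine ⟨face [] (z (fun _ => false)), Subgroup.subset_closure ⟨[], _, by simp, rfl⟩,
        fun T => ?_⟩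
      have : z T = z (fun _ => false) := hz _ _ (by simp)
      rw [this]
      simp [face]
  | insert i s his ih =>
    intro K z hz hd
    cases K with
    | zero =>
      refine ⟨1, Subgroup.one_mem _, fun T => ?_⟩
      have := hd [] (by simp) T
      simpa [difs] using this
    | succ K =>
      have h0dep : ∀ T T' : ι → Bool, (∀ j ∈ s, T j = T' j) →
          z (Function.update T i false) = z (Function.update T' i false) := by
        intro T T' h
        apply hz
        intro j hj
        by_cases hji : j = i
        · subst hji; simp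
        · rw [Function.update_of_ne hji, Function.update_of_ne hji]
          exact h j ((Finset.mem_insert.1 hj).resolve_left hji)
      have h1dep : ∀ T T' : ι → Bool, (∀ j ∈ s, T j = T' j) →
          dif i z T = dif i z T' := by
        intro T T' h
        have h1 : z (Function.update T i true) = z (Function.update T' i true) := by
          apply hz
          intro j hj
          by_cases hji : j = i
          · subst hji; simp
          · rw [Function.update_of_ne hji, Function.update_of_ne hji]
            exact h j ((Finset.mem_insert.1 hj).resolve_left hji)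
        simp only [dif]
        rw [h0dep T T' h, h1]
      obtain ⟨w0, hw0, h0⟩ := ih (K+1) (fun T => z (Function.update T i false)) h0dep
        (fun l hl => difs_lo U l i z (hd l hl))
      obtain ⟨w1, hw1, h1⟩ := ih K (dif i z) h1dep
        (fun l hl => hd (i :: l) (by simpa using hl))
      refine ⟨w0 * (fun T => if T i = true then w1 T else 1),
        Subgroup.mul_mem _ hw0 (W_mul_face K i w1 hw1), fun T => ?_⟩
      by_cases hT : T i = true
      · have e : Function.update T i true = T := by rw [← hT]; exact Function.update_eq_self i T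
        have e2 : z T = z (Function.update T i false) * dif i z T := by
          simp only [dif, e]; group
        simp only [Pi.mul_apply, hT, if_true]
        rw [e2, mul_inv, mul_mul_mul_comm]
        exact U.mul_mem (h0 T) (h1 T)
      · have hT' : T i = false := by simpa using hT
        have e : Function.update T i false = T := by rw [← hT']; exact Function.update_eq_self i T
        have h0T := h0 T
        simp only [e] at h0T
        simpa [hT'] using h0T

theorem exists_W [Fintype ι] (K : ℕ) (z : (ι → Bool) → M) (hd : DegLT U K z) :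
    ∃ w ∈ W ι M K, ∀ T, (w T)⁻¹ * z T ∈ U :=
  exists_W_aux U Finset.univ K z (fun T T' h => by
    have : T = T' := funext fun i => h i (Finset.mem_univ i)
    rw [this]) hd

/-- degree less than `K` in the left variables, modulo `U` -/
def DegL (K : ℕ) (z : (ι ⊕ κ → Bool) → M) : Prop :=
  ∀ η : κ → Bool, DegLT U K (fun ω : ι → Bool => z (Sum.elim ω η))

def DegR (K : ℕ) (z : (ι ⊕ κ → Bool) → M) : Prop :=
  ∀ ω : ι → Bool, DegLT U K (fun η : κ → Bool => z (Sum.elim ω η))

theorem DegL_dif_inl {K : ℕ} {z : (ι ⊕ κ → Bool) → M} (h : DegL U (K+1) z) (i : ι) :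
    DegL U K (dif (Sum.inl i) z) := by
  intro η l hl
  have := h η (i :: l) (by simpa using hl)
  simp only [difs] at this
  have e : (fun ω : ι → Bool => dif (Sum.inl i) z (Sum.elim ω η)) =
      dif i (fun ω : ι → Bool => z (Sum.elim ω η)) := by
    funext ω
    simp only [dif, Sum.update_elim_inl]
  rw [e]
  exact this

theorem DegL_dif_inr {K : ℕ} {z : (ι ⊕ κ → Bool) → M} (h : DegL U K z) (j : κ) :
    DegL U K (dif (Sum.inr j) z) := by
  intro η l hl T
  have e : (fun ω : ι → Bool => dif (Sum.inr j) z (Sum.elim ω η)) =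
      (fun ω : ι → Bool => z (Sum.elim ω (Function.update η j false)))⁻¹ *
      (fun ω : ι → Bool => z (Sum.elim ω (Function.update η j true))) := by
    funext ω
    simp only [dif, Sum.update_elim_inr, Pi.mul_apply, Pi.inv_apply]
  rw [e, difs_mul_comm, difs_inv_comm]
  exact U.mul_mem (U.inv_mem (h _ l hl T)) (h _ l hl T)

theorem DegR_dif_inr {K : ℕ} {z : (ι ⊕ κ → Bool) → M} (h : DegR U (K+1) z) (j : κ) :
    DegR U K (dif (Sum.inr j) z) := by
  intro ω l hl
  have := h ω (j :: l) (by simpa using hl)
  simp only [difs] at this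
  have e : (fun η : κ → Bool => dif (Sum.inr j) z (Sum.elim ω η)) =
      dif j (fun η : κ → Bool => z (Sum.elim ω η)) := by
    funext η
    simp only [dif, Sum.update_elim_inr]
  rw [e]
  exact this

theorem DegR_dif_inl {K : ℕ} {z : (ι ⊕ κ → Bool) → M} (h : DegR U K z) (i : ι) :
    DegR U K (dif (Sum.inl i) z) := by
  intro ω l hl T
  have e : (fun η : κ → Bool => dif (Sum.inl i) z (Sum.elim ω η)) =
      (fun η : κ → Bool => z (Sum.elim (Function.update ω i false) η))⁻¹ *
      (fun η : κ → Bool => z (Sum.elim (Function.update ω i true) η)) := by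
    funext η
    simp only [dif, Sum.update_elim_inl, Pi.mul_apply, Pi.inv_apply]
  rw [e, difs_mul_comm, difs_inv_comm]
  exact U.mul_mem (U.inv_mem (h _ l hl T)) (h _ l hl T)

theorem mem_of_DegL_DegR (l : List (ι ⊕ κ)) : ∀ (a b : ℕ) (z : (ι ⊕ κ → Bool) → M),
    DegL U a z → DegR U b z → a + b ≤ l.length + 1 → (a = 0 ∨ b = 0 ∨ True) →
    ∀ T, difs l z T ∈ U := by
  induction l with
  | nil =>
    intro a b z ha hb hab _ T
    have hT : T = Sum.elim (fun i => T (Sum.inl i)) (fun j => T (Sum.inr j)) := by
      funext x; cases x <;> rfl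
    simp only [List.length_nil] at hab
    have : a = 0 ∨ b = 0 := by omega
    rcases this with h | h
    · subst h
      have := ha (fun j => T (Sum.inr j)) [] (by simp) (fun i => T (Sum.inl i))
      simp only [difs] at this ⊢
      rw [hT]; exact this
    · subst h
      have := hb (fun i => T (Sum.inl i)) [] (by simp) (fun j => T (Sum.inr j))
      simp only [difs] at this ⊢
      rw [hT]; exact this
  | cons x l ih =>
    intro a b z ha hb hab _ T
    simp only [List.length_cons] at hab
    simp only [difs]
    cases x with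
    | inl i =>
      cases a with
      | zero =>
        have hz : ∀ T, z T ∈ U := by
          intro T
          have hT : T = Sum.elim (fun i => T (Sum.inl i)) (fun j => T (Sum.inr j)) := by
            funext x; cases x <;> rfl
          have := ha (fun j => T (Sum.inr j)) [] (by simp) (fun i => T (Sum.inl i))
          simp only [difs] at this
          rw [hT]; exact this
        exact difs_mem_of_mem U l _ (fun T => U.mul_mem (U.inv_mem (hz _)) (hz _)) T
      | succ a =>
        exact ih a b _ (DegL_dif_inl U ha i) (DegR_dif_inl U hb i) (by omega)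
          (Or.inr (Or.inr trivial)) T
    | inr j =>
      cases b with
      | zero =>
        have hz : ∀ T, z T ∈ U := by
          intro T
          have hT : T = Sum.elim (fun i => T (Sum.inl i)) (fun j => T (Sum.inr j)) := by
            funext x; cases x <;> rfl
          have := hb (fun i => T (Sum.inl i)) [] (by simp) (fun j => T (Sum.inr j))
          simp only [difs] at this
          rw [hT]; exact this
        exact difs_mem_of_mem U l _ (fun T => U.mul_mem (U.inv_mem (hz _)) (hz _)) T
      | succ b =>
        exact ih a b _ (DegL_dif_inr U ha j) (DegR_dif_inr U hb j) (by omega)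
          (Or.inr (Or.inr trivial)) T

theorem DegLT_of_DegL_DegR {K : ℕ} {z : (ι ⊕ κ → Bool) → M} (ha : DegL U K z)
    (hb : DegR U K z) : DegLT U (2 * K) z := by
  intro l hl T
  exact mem_of_DegL_DegR U l K K z ha hb (by omega) (Or.inr (Or.inr trivial)) T

end Comm

section Pull

variable {ι κ : Type} [DecidableEq ι] [DecidableEq κ] {G : Type uu} [Group G]

instance centerCommGroup : CommGroup (Subgroup.center G) :=
  { (inferInstance : Group (Subgroup.center G)) with
    mul_comm := fun a b => Subtype.ext ((Subgroup.mem_center_iff.1 b.2 (a : G))) }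

theorem E_left {k : ℕ} (F : (ι ⊕ κ → Bool) → G) (hF : F ∈ E (ι ⊕ κ) G k) (η : κ → Bool) :
    (fun ω : ι → Bool => F (Sum.elim ω η)) ∈ E ι G k := by
  induction hF using Subgroup.closure_induction with
  | mem F hF =>
    obtain ⟨s, g, hs, rfl⟩ := hF
    by_cases h : ∀ j, Sum.inr j ∈ s → η j = true
    · have : (fun ω : ι → Bool => face s g (Sum.elim ω η)) =
        face (s.filterMap (fun x => Sum.getLeft? x)) g := by
        funext ω
        simp only [face]
        have h1 : (∀ i ∈ s, Sum.elim ω η i = true) ↔
            (∀ i ∈ s.filterMap (fun x => Sum.getLeft? x), ω i = true) := by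
          constructor
          · intro h2 i hi
            rw [List.mem_filterMap] at hi
            obtain ⟨x, hx, hxi⟩ := hi
            cases x with
            | inl i' =>
              simp at hxi; subst hxi
              exact h2 _ hx
            | inr j => simp at hxi
          · intro h2 x hx
            cases x with
            | inl i =>
              apply h2
              rw [List.mem_filterMap]
              exact ⟨Sum.inl i, hx, rfl⟩
            | inr j => exact h j hx
        by_cases h3 : ∀ i ∈ s, Sum.elim ω η i = true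
        · rw [if_pos h3, if_pos (h1.1 h3)]
        · rw [if_neg h3, if_neg (fun h => h3 (h1.2 h))]
      rw [this]
      exact face_mem_E ((List.length_filterMap_le _ _).trans hs) g
    · have : (fun ω : ι → Bool => face s g (Sum.elim ω η)) = 1 := by
        funext ω
        simp only [face, Pi.one_apply]
        rw [if_neg]
        intro h2
        exact h (fun j hj => h2 _ hj)
      rw [this]; exact Subgroup.one_mem _
  | one => exact Subgroup.one_mem _
  | mul F F' _ _ h h' => exact Subgroup.mul_mem _ h h'
  | inv F _ h => exact Subgroup.inv_mem _ h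

theorem E_right {k : ℕ} (F : (ι ⊕ κ → Bool) → G) (hF : F ∈ E (ι ⊕ κ) G k) (ω : ι → Bool) :
    (fun η : κ → Bool => F (Sum.elim ω η)) ∈ E κ G k := by
  induction hF using Subgroup.closure_induction with
  | mem F hF =>
    obtain ⟨s, g, hs, rfl⟩ := hF
    by_cases h : ∀ j, Sum.inl j ∈ s → ω j = true
    · have : (fun η : κ → Bool => face s g (Sum.elim ω η)) =
        face (s.filterMap (fun x => Sum.getRight? x)) g := by
        funext η
        simp only [face]
        have h1 : (∀ i ∈ s, Sum.elim ω η i = true) ↔
            (∀ i ∈ s.filterMap (fun x => Sum.getRight? x), η i = true) := by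
          constructor
          · intro h2 i hi
            rw [List.mem_filterMap] at hi
            obtain ⟨x, hx, hxi⟩ := hi
            cases x with
            | inr i' =>
              simp at hxi; subst hxi
              exact h2 _ hx
            | inl j => simp at hxi
          · intro h2 x hx
            cases x with
            | inr i =>
              apply h2
              rw [List.mem_filterMap]
              exact ⟨Sum.inr i, hx, rfl⟩
            | inl j => exact h j hx
        by_cases h3 : ∀ i ∈ s, Sum.elim ω η i = true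
        · rw [if_pos h3, if_pos (h1.1 h3)]
        · rw [if_neg h3, if_neg (fun h => h3 (h1.2 h))]
      rw [this]
      exact face_mem_E ((List.length_filterMap_le _ _).trans hs) g
    · have : (fun η : κ → Bool => face s g (Sum.elim ω η)) = 1 := by
        funext η
        simp only [face, Pi.one_apply]
        rw [if_neg]
        intro h2
        exact h (fun j hj => h2 _ hj)
      rw [this]; exact Subgroup.one_mem _
  | one => exact Subgroup.one_mem _
  | mul F F' _ _ h h' => exact Subgroup.mul_mem _ h h'
  | inv F _ h => exact Subgroup.inv_mem _ h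

theorem face_diag (s : List (ι ⊕ ι)) (g : G) :
    (fun T : ι → Bool => face s g (Sum.elim T T)) = face (s.map (Sum.elim id id)) g := by
  funext T
  simp only [face]
  have h1 : (∀ i ∈ s, Sum.elim T T i = true) ↔
      (∀ i ∈ s.map (Sum.elim id id), T i = true) := by
    rw [List.forall_mem_map]
    constructor
    · intro h i hi
      have := h i hi
      cases i <;> simpa using this
    · intro h i hi
      have := h i hi
      cases i <;> simpa using this
  by_cases h3 : ∀ i ∈ s, Sum.elim T T i = true
  · rw [if_pos h3, if_pos (h1.1 h3)]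
  · rw [if_neg h3, if_neg (fun h => h3 (h1.2 h))]

theorem E_diag {k : ℕ} (F : (ι ⊕ ι → Bool) → G) (hF : F ∈ E (ι ⊕ ι) G k) :
    (fun T : ι → Bool => F (Sum.elim T T)) ∈ E ι G k := by
  induction hF using Subgroup.closure_induction with
  | mem F hF =>
    obtain ⟨s, g, hs, rfl⟩ := hF
    rw [face_diag]
    exact face_mem_E (by simpa using hs) g
  | one => exact Subgroup.one_mem _
  | mul F F' _ _ h h' => exact Subgroup.mul_mem _ h h'
  | inv F _ h => exact Subgroup.inv_mem _ h

theorem W_diag {M : Type uu} [CommGroup M] {K : ℕ} (F : (ι ⊕ ι → Bool) → M)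
    (hF : F ∈ W (ι ⊕ ι) M K) :
    (fun T : ι → Bool => F (Sum.elim T T)) ∈ W ι M K := by
  induction hF using Subgroup.closure_induction with
  | mem F hF =>
    obtain ⟨s, g, hs, rfl⟩ := hF
    rw [face_diag]
    exact Subgroup.subset_closure ⟨_, g, by simpa using hs, rfl⟩
  | one => exact Subgroup.one_mem _
  | mul F F' _ _ h h' => exact Subgroup.mul_mem _ h h'
  | inv F _ h => exact Subgroup.inv_mem _ h

theorem W_to_E {K : ℕ} (w : (ι → Bool) → Subgroup.center G)
    (hw : w ∈ W ι (Subgroup.center G) K) :
    (fun T : ι → Bool => (w T : G)) ∈ E ι G K := by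
  induction hw using Subgroup.closure_induction with
  | mem F hF =>
    obtain ⟨s, g, hs, rfl⟩ := hF
    have : (fun T : ι → Bool => ((face s g T : Subgroup.center G) : G)) = face s (g : G) := by
      funext T
      simp only [face]
      split_ifs <;> rfl
    rw [this]
    exact face_mem_E hs.le _
  | one => exact Subgroup.one_mem _
  | mul F F' _ _ h h' => exact Subgroup.mul_mem _ h h'
  | inv F _ h => exact Subgroup.inv_mem _ h

theorem E_lift {G' : Type uu} [Group G'] (f : G →* G') (hf : Function.Surjective f) {k : ℕ}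
    (F' : (ι → Bool) → G') (hF' : F' ∈ E ι G' k) :
    ∃ F ∈ E ι G k, ∀ T, f (F T) = F' T := by
  induction hF' using Subgroup.closure_induction with
  | mem F hF =>
    obtain ⟨s, g', hs, rfl⟩ := hF
    obtain ⟨g, rfl⟩ := hf g'
    refine ⟨face s g, face_mem_E hs g, fun T => ?_⟩
    simp only [face]
    split_ifs
    · rfl
    · exact map_one f
  | one => exact ⟨1, Subgroup.one_mem _, fun T => by simp⟩
  | mul F F' _ _ h h' =>
    obtain ⟨a, ha, ha'⟩ := h
    obtain ⟨b, hb, hb'⟩ := h'
    exact ⟨a * b, Subgroup.mul_mem _ ha hb, fun T => by simp [ha', hb']⟩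
  | inv F _ h =>
    obtain ⟨a, ha, ha'⟩ := h
    exact ⟨a⁻¹, Subgroup.inv_mem _ ha, fun T => by simp [ha']⟩

end Pull

section Sys

/-- transitive action together with a multiplication whose translations are realised by group
elements -/
structure Sys (G Q : Type uu) [Group G] [MulAction G Q] [Mul Q] : Prop where
  trans : ∀ x y : Q, ∃ g : G, g • x = y
  left : ∀ x : Q, ∃ g : G, ∀ y, x * y = g • y
  right : ∀ y : Q, ∃ g : G, ∀ x, x * y = g • x

/-- the cubes generated by constants and coordinate cubes under the loop operations -/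
inductive Del (ι : Type) (Q : Type uu) [Mul Q] : ((ι → Bool) → Q) → Prop
  | const (q : Q) : Del ι Q (fun _ => q)
  | coord (i : ι) (a b : Q) : Del ι Q (fun T => if T i = true then b else a)
  | mul (u v : (ι → Bool) → Q) : Del ι Q u → Del ι Q v → Del ι Q (fun T => u T * v T)
  | ldiv (u v w : (ι → Bool) → Q) : Del ι Q u → Del ι Q w → (∀ T, u T * v T = w T) → Del ι Q v
  | rdiv (u v w : (ι → Bool) → Q) : Del ι Q v → Del ι Q w → (∀ T, u T * v T = w T) → Del ι Q u

theorem Del.pull {ι κ : Type} {Q : Type uu} [Mul Q] (t : ι → κ) {u : (ι → Bool) → Q}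
    (h : Del ι Q u) : Del κ Q (fun T : κ → Bool => u (fun i => T (t i))) := by
  induction h with
  | const q => exact Del.const q
  | coord i a b => exact Del.coord (t i) a b
  | mul u v _ _ h h' => exact Del.mul _ _ h h'
  | ldiv u v w _ _ he h h' => exact Del.ldiv _ _ _ h h' (fun T => he _)
  | rdiv u v w _ _ he h h' => exact Del.rdiv _ _ _ h h' (fun T => he _)

theorem center_comm {G Q : Type uu} [Group G] [MulAction G Q] (z : Subgroup.center G) (g : G)
    (x : Q) : z • g • x = g • z • x := by
  rw [Subgroup.smul_def, Subgroup.smul_def, smul_smul, smul_smul]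
  rw [Subgroup.mem_center_iff.1 z.2 g]

variable {G Q : Type uu} [Group G] [MulAction G Q] [Mul Q]

theorem Sys.smul_mul (h : Sys G Q) (z : Subgroup.center G) (x y : Q) :
    (z • x) * y = z • (x * y) := by
  obtain ⟨g, hg⟩ := h.right y
  rw [hg, hg, center_comm]

theorem Sys.mul_smul' (h : Sys G Q) (z : Subgroup.center G) (x y : Q) :
    x * (z • y) = z • (x * y) := by
  obtain ⟨g, hg⟩ := h.left x
  rw [hg, hg, center_comm]

/-- orbit relation of the centre -/
def crel (G Q : Type uu) [Group G] [MulAction G Q] : Setoid Q where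
  r x y := ∃ z : Subgroup.center G, z • x = y
  iseqv :=
    { refl := fun x => ⟨1, one_smul _ _⟩
      symm := by
        rintro x y ⟨z, rfl⟩
        exact ⟨z⁻¹, by simp⟩
      trans := by
        rintro x y w ⟨z, rfl⟩ ⟨z', rfl⟩
        exact ⟨z' * z, by rw [mul_smul]⟩ }

/-- multiplication on the quotient by the centre -/
@[instance_reducible] def qmul (h : Sys G Q) : Mul (Quotient (crel G Q)) where
  mul := Quotient.map₂ (fun x y => x * y) (by
    rintro x x' ⟨z, rfl⟩ y y' ⟨z', rfl⟩
    refine ⟨z * z', ?_⟩
    show (z * z') • (x * y) = (z • x) * (z' • y)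
    rw [h.smul_mul, h.mul_smul', mul_smul])

/-- action of the quotient by the centre on the quotient by the centre -/
@[instance_reducible] def qact (G Q : Type uu) [Group G] [MulAction G Q] :
    MulAction (G ⧸ Subgroup.center G) (Quotient (crel G Q)) where
  smul := Quotient.map₂ (fun (g : G) (x : Q) => g • x) (by
    intro g g' hg x x' hx
    obtain ⟨z', rfl⟩ := hx
    have hg' : g⁻¹ * g' ∈ Subgroup.center G := QuotientGroup.leftRel_apply.1 hg
    refine ⟨⟨g⁻¹ * g', hg'⟩ * z', ?_⟩
    show (_ : Subgroup.center G) • g • x = g' • z' • x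
    rw [mul_smul, center_comm z' g x, center_comm, Subgroup.smul_def, smul_smul]
    congr 1
    show g * (g⁻¹ * g') = g'
    group)
  one_smul := by
    intro x
    induction x using Quotient.inductionOn with
    | _ x =>
      show Quotient.mk _ ((1 : G) • x) = _
      rw [one_smul]
  mul_smul := by
    intro a b x
    induction a using QuotientGroup.induction_on with
    | _ a =>
      induction b using QuotientGroup.induction_on with
      | _ b =>
        induction x using Quotient.inductionOn with
        | _ x =>
          show Quotient.mk _ ((a * b) • x) = Quotient.mk _ (a • b • x)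
          rw [mul_smul]

/-- If `F` moves the base point inside the orbit of the centre, the resulting central function
has bounded degree modulo the stabiliser. -/
theorem DegLT_of_E {G Q : Type uu} [Group G] [MulAction G Q] {ι : Type} [DecidableEq ι]
    (k c : ℕ) (hc : Subgroup.upperCentralSeries G c = ⊤) (pt : Q)
    (F : (ι → Bool) → G) (hF : F ∈ E ι G k) (z : (ι → Bool) → Subgroup.center G)
    (hz : ∀ T, F T • pt = z T • pt) :
    DegLT (MulAction.stabilizer (Subgroup.center G) pt) (Dbd k c) z := by
  have claim : ∀ (l : List ι) (F : (ι → Bool) → G) (z : (ι → Bool) → Subgroup.center G),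
      (∀ T, F T • pt = z T • pt) → ∀ T, difs l F T • pt = difs l z T • pt := by
    intro l
    induction l with
    | nil => intro F z h; exact h
    | cons i l ih =>
      intro F z h
      apply ih
      intro T
      simp only [dif]
      have h0 := h (Function.update T i false)
      have h1 := h (Function.update T i true)
      rw [mul_smul, h1, ← center_comm, mul_comm, mul_smul]
      congr 1
      rw [inv_smul_eq_iff, ← center_comm, h0, inv_smul_smul]
  intro l hl T
  rw [MulAction.mem_stabilizer_iff, ← claim l F z hz T, difs_E_eq_one k c hc l hl F hF T,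
    one_smul]

theorem stab_smul {G Q : Type uu} [Group G] [MulAction G Q] (pt : Q) (z : Subgroup.center G)
    (hz : z ∈ MulAction.stabilizer (Subgroup.center G) pt) (g : G) : z • g • pt = g • pt := by
  rw [center_comm, MulAction.mem_stabilizer_iff.1 hz]

/-- the statement proved by induction on the class -/
def Stm (c k : ℕ) : Prop :=
  ∀ (G Q : Type uu) [Group G] [MulAction G Q] [Mul Q], Sys G Q →
    Subgroup.upperCentralSeries G c = ⊤ → ∀ (pt : Q) (ι : Type) [Fintype ι] [DecidableEq ι]
    (u : (ι → Bool) → Q), Del ι Q u → ∃ F ∈ E ι G k, ∀ T, u T = F T • pt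

theorem stm_zero : Stm.{uu} 0 1 := by
  intro G Q _ _ _ hs hc pt ι _ _ u _
  refine ⟨1, Subgroup.one_mem _, fun T => ?_⟩
  obtain ⟨g, hg⟩ := hs.trans pt (u T)
  have : g ∈ (⊤ : Subgroup G) := Subgroup.mem_top g
  rw [← hc, Subgroup.upperCentralSeries_zero, Subgroup.mem_bot] at this
  rw [← hg, this]
  rfl

/-- the good set of cubes used in the induction step -/
def Good (k K : ℕ) (G Q : Type uu) [Group G] [MulAction G Q] [Mul Q] (hs : Sys G Q) (pt : Q)
    (ι : Type) [DecidableEq ι] (u : (ι → Bool) → Q) : Prop :=
  (@Del ι (Quotient (crel G Q)) (qmul hs) (fun T => Quotient.mk _ (u T))) ∧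
  ∃ F ∈ E ι G k, ∃ w ∈ W ι (Subgroup.center G) K, ∀ T, u T = w T • F T • pt

theorem lift_good {c k : ℕ} (ih : Stm.{uu} c k) (G Q : Type uu) [Group G] [MulAction G Q] [Mul Q]
    (hs : Sys G Q) (hc : Subgroup.upperCentralSeries G (c + 1) = ⊤) (pt : Q)
    (ι : Type) [Fintype ι] [DecidableEq ι] (u : (ι → Bool) → Q)
    (hu : @Del ι (Quotient (crel G Q)) (qmul hs) (fun T => Quotient.mk _ (u T))) :
    ∃ F ∈ E ι G k, ∃ z : (ι → Bool) → Subgroup.center G, ∀ T, u T = z T • F T • pt := by
  let _ := qmul hs
  let _ := qact G Q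
  have hsys : Sys (G ⧸ Subgroup.center G) (Quotient (crel G Q)) := by
    refine ⟨?_, ?_, ?_⟩
    · intro x y
      induction x using Quotient.inductionOn with
      | _ x =>
        induction y using Quotient.inductionOn with
        | _ y =>
          obtain ⟨g, hg⟩ := hs.trans x y
          refine ⟨(g : G ⧸ Subgroup.center G), ?_⟩
          show Quotient.mk _ (g • x) = _
          rw [hg]
    · intro x
      induction x using Quotient.inductionOn with
      | _ x =>
        obtain ⟨g, hg⟩ := hs.left x
        refine ⟨(g : G ⧸ Subgroup.center G), ?_⟩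
        intro y
        induction y using Quotient.inductionOn with
        | _ y =>
          show Quotient.mk _ (x * y) = Quotient.mk _ (g • y)
          rw [hg]
    · intro x
      induction x using Quotient.inductionOn with
      | _ x =>
        obtain ⟨g, hg⟩ := hs.right x
        refine ⟨(g : G ⧸ Subgroup.center G), ?_⟩
        intro y
        induction y using Quotient.inductionOn with
        | _ y =>
          show Quotient.mk _ (y * x) = Quotient.mk _ (g • y)
          rw [hg]
  have hcq : Subgroup.upperCentralSeries (G ⧸ Subgroup.center G) c = ⊤ := by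
    have h1 := Subgroup.comap_upperCentralSeries_quotient_center (G := G) c
    rw [hc] at h1
    rw [← Subgroup.comap_top (QuotientGroup.mk' (Subgroup.center G))] at h1
    exact Subgroup.comap_injective (QuotientGroup.mk'_surjective _) h1
  obtain ⟨F', hF', hu'⟩ := ih (G ⧸ Subgroup.center G) (Quotient (crel G Q)) hsys hcq
    (Quotient.mk _ pt) ι _ hu
  obtain ⟨F, hF, hFF'⟩ := E_lift (QuotientGroup.mk' (Subgroup.center G))
    (QuotientGroup.mk'_surjective _) F' hF'
  have hex : ∀ T, ∃ z : Subgroup.center G, u T = z • F T • pt := by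
    intro T
    have h1 := hu' T
    rw [← hFF' T] at h1
    have h2 : Quotient.mk (crel G Q) (u T) = Quotient.mk (crel G Q) (F T • pt) := h1
    obtain ⟨z, hz⟩ := Quotient.exact h2.symm
    exact ⟨z, hz.symm⟩
  choose z hz using hex
  exact ⟨F, hF, z, hz⟩

/-- converting a bounded-degree defect into an explicit one -/
theorem good_of_degLT {K : ℕ} (G Q : Type uu) [Group G] [MulAction G Q] [Mul Q]
    (pt : Q) (ι : Type) [Fintype ι] [DecidableEq ι] (u : (ι → Bool) → Q)
    (F : (ι → Bool) → G) (z : (ι → Bool) → Subgroup.center G)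
    (hz : DegLT (MulAction.stabilizer (Subgroup.center G) pt) K z)
    (hu : ∀ T, u T = z T • F T • pt) :
    ∃ w ∈ W ι (Subgroup.center G) K, ∀ T, u T = w T • F T • pt := by
  obtain ⟨w, hw, hwz⟩ := exists_W _ K z hz
  refine ⟨w, hw, fun T => ?_⟩
  rw [hu T]
  have h1 := stab_smul pt _ (hwz T) (F T)
  conv_rhs => rw [← h1]
  rw [smul_smul]
  congr 1
  group

theorem good_mul {c k : ℕ} (ih : Stm.{uu} c k) (G Q : Type uu) [Group G] [MulAction G Q] [Mul Q]
    (hs : Sys G Q) (hc : Subgroup.upperCentralSeries G (c + 1) = ⊤) (pt : Q)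
    (ι : Type) [Fintype ι] [DecidableEq ι] (u v : (ι → Bool) → Q)
    (hu : Good k (2 * Dbd k (c + 1)) G Q hs pt ι u)
    (hv : Good k (2 * Dbd k (c + 1)) G Q hs pt ι v) :
    Good k (2 * Dbd k (c + 1)) G Q hs pt ι (fun T => u T * v T) := by
  obtain ⟨hu1, F, hF, w, hw, hu2⟩ := hu
  obtain ⟨hv1, F', hF', w', hw', hv2⟩ := hv
  refine ⟨@Del.mul ι (Quotient (crel G Q)) (qmul hs) _ _ hu1 hv1, ?_⟩
  -- reduce to the case w = w' = 1
  set u0 : (ι → Bool) → Q := fun T => F T • pt with hu0
  set v0 : (ι → Bool) → Q := fun T => F' T • pt with hv0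
  have hmk : ∀ T, Quotient.mk (crel G Q) (u0 T) = Quotient.mk (crel G Q) (u T) := by
    intro T
    apply Quotient.sound
    exact ⟨w T, (hu2 T).symm⟩
  have hmk' : ∀ T, Quotient.mk (crel G Q) (v0 T) = Quotient.mk (crel G Q) (v T) := by
    intro T
    apply Quotient.sound
    exact ⟨w' T, (hv2 T).symm⟩
  -- the doubled product
  set p : (ι ⊕ ι → Bool) → Q :=
    fun T => u0 (fun i => T (Sum.inl i)) * v0 (fun i => T (Sum.inr i)) with hp
  have hpDel : @Del (ι ⊕ ι) (Quotient (crel G Q)) (qmul hs) (fun T => Quotient.mk _ (p T)) := by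
    have h1 := @Del.pull ι (ι ⊕ ι) (Quotient (crel G Q)) (qmul hs) Sum.inl _ hu1
    have h2 := @Del.pull ι (ι ⊕ ι) (Quotient (crel G Q)) (qmul hs) Sum.inr _ hv1
    have h3 := @Del.mul (ι ⊕ ι) (Quotient (crel G Q)) (qmul hs) _ _ h1 h2
    have e : (fun T : ι ⊕ ι → Bool => Quotient.mk (crel G Q) (p T)) =
        (fun T => @HMul.hMul _ _ _ (@instHMul _ (qmul hs))
          (Quotient.mk (crel G Q) (u (fun i => T (Sum.inl i))))
          (Quotient.mk (crel G Q) (v (fun i => T (Sum.inr i))))) := by
      funext T
      rw [← hmk, ← hmk']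
      rfl
    rw [e]
    exact h3
  obtain ⟨Φ, hΦ, z, hz⟩ := lift_good ih G Q hs hc pt (ι ⊕ ι) p hpDel
  have hL : DegL (MulAction.stabilizer (Subgroup.center G) pt) (Dbd k (c + 1)) z := by
    intro η
    obtain ⟨r, hr⟩ := hs.right (v0 η)
    apply DegLT_of_E k (c + 1) hc pt
      ((fun ω : ι → Bool => Φ (Sum.elim ω η))⁻¹ * (fun _ : ι → Bool => r) * F)
      (Subgroup.mul_mem _ (Subgroup.mul_mem _ (Subgroup.inv_mem _ (E_left Φ hΦ η))
        (const_mem_E r)) hF)
    intro ω
    have h1 := hz (Sum.elim ω η)
    have h2 : p (Sum.elim ω η) = r • F ω • pt := by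
      simp only [hp, Sum.elim_inl, Sum.elim_inr]
      exact hr _
    rw [h2] at h1
    simp only [Pi.mul_apply, Pi.inv_apply]
    rw [mul_smul, mul_smul, h1, inv_smul_eq_iff, center_comm]
  have hR : DegR (MulAction.stabilizer (Subgroup.center G) pt) (Dbd k (c + 1)) z := by
    intro ω
    obtain ⟨r, hr⟩ := hs.left (u0 ω)
    apply DegLT_of_E k (c + 1) hc pt
      ((fun η : ι → Bool => Φ (Sum.elim ω η))⁻¹ * (fun _ : ι → Bool => r) * F')
      (Subgroup.mul_mem _ (Subgroup.mul_mem _ (Subgroup.inv_mem _ (E_right Φ hΦ ω))
        (const_mem_E r)) hF')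
    intro η
    have h1 := hz (Sum.elim ω η)
    have h2 : p (Sum.elim ω η) = r • F' η • pt := by
      simp only [hp, Sum.elim_inl, Sum.elim_inr]
      exact hr _
    rw [h2] at h1
    simp only [Pi.mul_apply, Pi.inv_apply]
    rw [mul_smul, mul_smul, h1, inv_smul_eq_iff, center_comm]
  have hD := DegLT_of_DegL_DegR _ hL hR
  obtain ⟨w1, hw1, hw1'⟩ := good_of_degLT G Q pt (ι ⊕ ι) p Φ z hD hz
  refine ⟨fun T => Φ (Sum.elim T T), E_diag Φ hΦ,
    w * w' * (fun T => w1 (Sum.elim T T)),
    Subgroup.mul_mem _ (Subgroup.mul_mem _ hw hw') (W_diag w1 hw1), fun T => ?_⟩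
  have h1 := hw1' (Sum.elim T T)
  simp only [hp, Sum.elim_inl, Sum.elim_inr] at h1
  have h2 : u T * v T = (w T * w' T) • (u0 T * v0 T) := by
    rw [hu2 T, hv2 T, hs.smul_mul, hs.mul_smul', ← mul_smul]
  simp only [Pi.mul_apply]
  rw [h2, mul_smul (w T * w' T)]
  congr 1

/-- two good cubes that agree modulo the centre differ by a good central function -/
theorem good_of_eq {c k : ℕ} (G Q : Type uu) [Group G] [MulAction G Q] [Mul Q]
    (hs : Sys G Q) (hc : Subgroup.upperCentralSeries G (c + 1) = ⊤) (pt : Q)
    (ι : Type) [Fintype ι] [DecidableEq ι] (a b : (ι → Bool) → Q)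
    (ha : Good k (2 * Dbd k (c + 1)) G Q hs pt ι a)
    (hb : Good k (2 * Dbd k (c + 1)) G Q hs pt ι b)
    (z : (ι → Bool) → Subgroup.center G) (hz : ∀ T, a T = z T • b T)
    (v : (ι → Bool) → Q) (F : (ι → Bool) → G) (hF : F ∈ E ι G k)
    (hv : ∀ T, v T = z T • F T • pt) :
    ∃ w ∈ W ι (Subgroup.center G) (2 * Dbd k (c + 1)), ∀ T, v T = w T • F T • pt := by
  obtain ⟨_, F1, hF1, w1, hw1, h1⟩ := ha
  obtain ⟨_, F2, hF2, w2, hw2, h2⟩ := hb
  have hdeg : DegLT (MulAction.stabilizer (Subgroup.center G) pt) (Dbd k (c + 1))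
      (z * w2 * w1⁻¹) := by
    apply DegLT_of_E k (c + 1) hc pt (F2⁻¹ * F1)
      (Subgroup.mul_mem _ (Subgroup.inv_mem _ hF2) hF1)
    intro T
    have h3 := hz T
    rw [h1 T, h2 T, ← mul_smul] at h3
    simp only [Pi.mul_apply, Pi.inv_apply]
    rw [mul_smul, inv_smul_eq_iff, ← center_comm, mul_comm, mul_smul, ← h3, inv_smul_smul]
  obtain ⟨w, hw, hwz⟩ := exists_W _ _ _ hdeg
  refine ⟨w * w1 * w2⁻¹, ?_, fun T => ?_⟩
  · refine Subgroup.mul_mem _ (Subgroup.mul_mem _ (W_mono (by omega) hw) hw1)
      (Subgroup.inv_mem _ hw2)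
  · rw [hv T]
    have h4 := stab_smul pt _ (hwz T) (F T)
    conv_rhs => rw [← h4]
    rw [smul_smul]
    congr 1
    simp only [Pi.mul_apply, Pi.inv_apply]
    have : (w T * w1 T * (w2 T)⁻¹) * ((w T)⁻¹ * (z T * w2 T * (w1 T)⁻¹)) =
      z T * ((w T * (w T)⁻¹) * (w1 T * (w1 T)⁻¹) * (w2 T * (w2 T)⁻¹)) := by
      simp only [mul_comm, mul_assoc, mul_left_comm]
    rw [this]; simp

theorem good_lift_div {c k : ℕ} (ih : Stm.{uu} c k) (G Q : Type uu) [Group G] [MulAction G Q] [Mul Q]
    (hs : Sys G Q) (hc : Subgroup.upperCentralSeries G (c + 1) = ⊤) (pt : Q)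
    (ι : Type) [Fintype ι] [DecidableEq ι] (u v x : (ι → Bool) → Q)
    (hu : Good k (2 * Dbd k (c + 1)) G Q hs pt ι u)
    (hx : Good k (2 * Dbd k (c + 1)) G Q hs pt ι x)
    (he : (∀ T, u T * v T = x T) ∨ (∀ T, v T * u T = x T)) :
    Good k (2 * Dbd k (c + 1)) G Q hs pt ι v := by
  have hv1 : @Del ι (Quotient (crel G Q)) (qmul hs) (fun T => Quotient.mk _ (v T)) := by
    rcases he with he | he
    · refine @Del.ldiv ι (Quotient (crel G Q)) (qmul hs) _ _ _ hu.1 hx.1 ?_
      intro T
      show Quotient.mk _ (u T * v T) = _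
      rw [he T]
    · refine @Del.rdiv ι (Quotient (crel G Q)) (qmul hs) _ _ _ hu.1 hx.1 ?_
      intro T
      show Quotient.mk _ (v T * u T) = _
      rw [he T]
  obtain ⟨Φ, hΦ, z, hz⟩ := lift_good ih G Q hs hc pt ι v hv1
  have hv0 : Good k (2 * Dbd k (c + 1)) G Q hs pt ι (fun T => Φ T • pt) := by
    refine ⟨?_, Φ, hΦ, 1, Subgroup.one_mem _, fun T => by simp⟩
    have e : (fun T : ι → Bool => Quotient.mk (crel G Q) (Φ T • pt)) =
        (fun T => Quotient.mk _ (v T)) := by
      funext T
      apply Quotient.sound
      exact ⟨z T, (hz T).symm⟩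
    rw [e]; exact hv1
  refine ⟨hv1, Φ, hΦ, ?_⟩
  rcases he with he | he
  · have hprod := good_mul ih G Q hs hc pt ι u _ hu hv0
    refine good_of_eq G Q hs hc pt ι x _ hx hprod z ?_ v Φ hΦ hz
    intro T
    rw [← he T, hz T, hs.mul_smul']
  · have hprod := good_mul ih G Q hs hc pt ι _ u hv0 hu
    refine good_of_eq G Q hs hc pt ι x _ hx hprod z ?_ v Φ hΦ hz
    intro T
    rw [← he T, hz T, hs.smul_mul]

theorem stm_succ {c k : ℕ} (hk : 1 ≤ k) (ih : Stm.{uu} c k) :
    Stm.{uu} (c + 1) (max k (2 * Dbd k (c + 1))) := by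
  intro G Q _ _ _ hs hc pt ι _ _ u hu
  have hgood : Good k (2 * Dbd k (c + 1)) G Q hs pt ι u := by
    induction hu with
    | const q =>
      obtain ⟨g, hg⟩ := hs.trans pt q
      refine ⟨@Del.const ι (Quotient (crel G Q)) (qmul hs) _, fun _ => g, const_mem_E g, 1,
        Subgroup.one_mem _, fun T => by simp [hg]⟩
    | coord i a b =>
      obtain ⟨g, hg⟩ := hs.trans pt a
      obtain ⟨g', hg'⟩ := hs.trans a b
      refine ⟨?_, face [i] g' * (fun _ => g), Subgroup.mul_mem _ (face_mem_E (by simpa using hk) g')
        (const_mem_E g), 1, Subgroup.one_mem _, fun T => ?_⟩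
      · have e : (fun T : ι → Bool => Quotient.mk (crel G Q) (if T i = true then b else a)) =
          (fun T => if T i = true then Quotient.mk (crel G Q) b else Quotient.mk (crel G Q) a) := by
          funext T
          split_ifs <;> rfl
        rw [e]
        exact @Del.coord ι (Quotient (crel G Q)) (qmul hs) i _ _
      · by_cases hT : T i = true
        · simp [face, hT, mul_smul, hg, hg']
        · simp [face, hT, hg]
    | mul u v _ _ h h' => exact good_mul ih G Q hs hc pt ι u v h h'
    | ldiv u v w _ _ he h h' => exact good_lift_div ih G Q hs hc pt ι u v w h h' (Or.inl he)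
    | rdiv u v w _ _ he h h' => exact good_lift_div ih G Q hs hc pt ι v u w h h' (Or.inr he)
  obtain ⟨_, F, hF, w, hw, h⟩ := hgood
  refine ⟨(fun T => (w T : G)) * F, Subgroup.mul_mem _ (E_mono (le_max_right _ _) (W_to_E w hw))
    (E_mono (le_max_left _ _) hF), fun T => ?_⟩
  rw [h T, Subgroup.smul_def, ← mul_smul]
  rfl

/-- the explicit constants -/
def kk : ℕ → ℕ
  | 0 => 1
  | c + 1 => max (kk c) (2 * Dbd (kk c) (c + 1))

theorem one_le_kk (c : ℕ) : 1 ≤ kk c := by
  induction c with
  | zero => exact le_refl _
  | succ c ih => exact ih.trans (le_max_left _ _)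

theorem stm_all (c : ℕ) : Stm.{uu} c (kk c) := by
  induction c with
  | zero => exact stm_zero
  | succ c ih => exact stm_succ (one_le_kk c) ih

/-- top vertex lemma -/
theorem top_vertex {ι : Type} [DecidableEq ι] {G : Type uu} [Group G] (H : Subgroup G) (l : List ι) :
    ∀ (Ψ : (ι → Bool) → G), l.Nodup → (∀ T, (∃ i ∈ l, T i = false) → Ψ T ∈ H) →
    ∀ T, ∃ h ∈ H, difs l Ψ T = h * Ψ (fun i => if i ∈ l then true else T i) := by
  induction l with
  | nil => intro Ψ _ _ T; exact ⟨1, H.one_mem, by simp [difs]⟩
  | cons i l ih =>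
    intro Ψ hnd hΨ T
    rw [List.nodup_cons] at hnd
    obtain ⟨h, hh, he⟩ := ih (dif i Ψ) hnd.2 (by
      rintro T ⟨j, hj, hTj⟩
      have hji : j ≠ i := fun h => hnd.1 (h ▸ hj)
      refine H.mul_mem (H.inv_mem (hΨ _ ⟨i, by simp, by simp⟩)) (hΨ _ ⟨j, by simp [hj], ?_⟩)
      rw [Function.update_of_ne hji]
      exact hTj) T
    refine ⟨h * (Ψ (Function.update (fun j => if j ∈ l then true else T j) i false))⁻¹,
      H.mul_mem hh (H.inv_mem (hΨ _ ⟨i, by simp, by simp⟩)), ?_⟩
    simp only [difs]
    rw [he]
    simp only [dif]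
    rw [mul_assoc]
    congr 3
    funext j
    by_cases hji : j = i
    · subst hji; simp
    · simp [Function.update_of_ne hji, hji]

/-- unique completion of the last vertex of a large cube -/
theorem unique_completion (c : ℕ) (G Q : Type uu) [Group G] [MulAction G Q] [Mul Q]
    (hs : Sys G Q) (hc : Subgroup.upperCentralSeries G c = ⊤)
    (ι : Type) [Fintype ι] [DecidableEq ι] (hι : Dbd (kk c) c ≤ Fintype.card ι)
    (u v : (ι → Bool) → Q) (hu : Del ι Q u) (hv : Del ι Q v)
    (h : ∀ T : ι → Bool, T ≠ (fun _ => true) → u T = v T) :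
    u (fun _ => true) = v (fun _ => true) := by
  set pt := u (fun _ => true) with hpt
  obtain ⟨F, hF, hFu⟩ := stm_all c G Q hs hc pt ι u hu
  obtain ⟨F', hF', hFv⟩ := stm_all c G Q hs hc pt ι v hv
  have hΦ : F⁻¹ * F' ∈ E ι G (kk c) := Subgroup.mul_mem _ (Subgroup.inv_mem _ hF) hF'
  obtain ⟨g, hg, hge⟩ := top_vertex (MulAction.stabilizer G pt) (Finset.univ : Finset ι).toList
    (F⁻¹ * F') (Finset.nodup_toList _) (by
      rintro T ⟨i, _, hi⟩
      have hne : T ≠ (fun _ => true) := by
        intro h'
        rw [h'] at hi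
        exact absurd hi (by simp)
      have h1 := h T hne
      rw [hFu T, hFv T] at h1
      rw [MulAction.mem_stabilizer_iff]
      simp only [Pi.mul_apply, Pi.inv_apply]
      rw [mul_smul, ← h1, inv_smul_smul]) (fun _ => true)
  rw [difs_E_eq_one (kk c) c hc _ (by simpa using hι) _ hΦ] at hge
  have h2 : (F⁻¹ * F') (fun _ => true) ∈ MulAction.stabilizer G pt := by
    have e : (fun i : ι => if i ∈ (Finset.univ : Finset ι).toList then true else true) =
        (fun _ => true) := by
      funext i; simp
    rw [e] at hge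
    have : (F⁻¹ * F') (fun _ => true) = g⁻¹ := by
      rw [eq_inv_iff_mul_eq_one]
      have := hge
      rw [eq_comm, mul_eq_one_iff_eq_inv] at this
      rw [this, mul_inv_cancel]
    rw [this]
    exact Subgroup.inv_mem _ hg
  rw [MulAction.mem_stabilizer_iff] at h2
  simp only [Pi.mul_apply, Pi.inv_apply] at h2
  rw [mul_smul, inv_smul_eq_iff] at h2
  rw [hFv, h2, ← hFu]

end Sys

end Pool.Agent.P09.LoopCubesU
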