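import Mathlib

/-!
Right alternative algebras: nuclei, values of nonassociative polynomials, and an auxiliary
extension of a unital right alternative algebra.
-/

set_option autoImplicit false
set_option linter.unusedSectionVars false

universe u v

namespace Pool.Agent.P09.RightAlt

/-- `A` is right alternative: `(x, y, y) = 0`. -/
def IsRightAlternative (A : Type v) [NonUnitalNonAssocRing A] : Prop :=
  ∀ x y : A, associator x y y = 0

/-- The right associative center `{n | (x, y, n) = 0 for all x, y}`. -/
def rightCenter (A : Type v) [NonUnitalNonAssocRing A] : Set A :=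
  {n | ∀ x y : A, associator x y n = 0}

/-- The left associative center `{n | (n, x, y) = 0 for all x, y}`. -/
def leftCenter (A : Type v) [NonUnitalNonAssocRing A] : Set A :=
  {n | ∀ x y : A, associator n x y = 0}

/-- The alternative center `{a | (a, x, y) = -(x, a, y) = (x, y, a) for all x, y}`. -/
def alternativeCenter (A : Type v) [NonUnitalNonAssocRing A] : Set A :=
  {a | ∀ x y : A, associator a x y = -associator x a y ∧
    -associator x a y = associator x y a}

/-- A nonassociative polynomial with coefficients in `Φ` in the variables `x_0, x_1, ...`: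
an element of the free nonassociative (nonunital) `Φ`-algebra on countably many generators. -/
abbrev NAPoly (Φ : Type u) [CommRing Φ] : Type u := FreeNonUnitalNonAssocAlgebra Φ ℕ

/-- The value `f(a_0, a_1, ...)` of a nonassociative polynomial in a `Φ`-algebra. -/
noncomputable def value {Φ : Type u} [CommRing Φ] {A : Type v} [NonUnitalNonAssocRing A]
    [Module Φ A] [IsScalarTower Φ A A] [SMulCommClass Φ A A] (f : NAPoly Φ) (a : ℕ → A) : A :=
  FreeNonUnitalNonAssocAlgebra.lift Φ a f

/-- `f` is an identity of all right alternative `Φ`-algebras. -/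
def IsIdentity (Φ : Type u) [CommRing Φ] (f : NAPoly Φ) : Prop :=
  ∀ (A : Type (max u v)) [NonUnitalNonAssocRing A] [Module Φ A] [IsScalarTower Φ A A]
    [SMulCommClass Φ A A], IsRightAlternative A → ∀ a : ℕ → A, value f a = 0

/-- All values of `f` in all right alternative `Φ`-algebras lie in the right associative
center. -/
def ValuesInRightCenter (Φ : Type u) [CommRing Φ] (f : NAPoly Φ) : Prop :=
  ∀ (A : Type (max u v)) [NonUnitalNonAssocRing A] [Module Φ A] [IsScalarTower Φ A A]
    [SMulCommClass Φ A A], IsRightAlternative A → ∀ a : ℕ → A, value f a ∈ rightCenter A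

/-- All values of `f` in all right alternative `Φ`-algebras lie in the left associative
center. -/
def ValuesInLeftCenter (Φ : Type u) [CommRing Φ] (f : NAPoly Φ) : Prop :=
  ∀ (A : Type (max u v)) [NonUnitalNonAssocRing A] [Module Φ A] [IsScalarTower Φ A A]
    [SMulCommClass Φ A A], IsRightAlternative A → ∀ a : ℕ → A, value f a ∈ leftCenter A

/-- All values of `f` in all right alternative `Φ`-algebras lie in the alternative center. -/
def ValuesInAlternativeCenter (Φ : Type u) [CommRing Φ] (f : NAPoly Φ) : Prop :=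
  ∀ (A : Type (max u v)) [NonUnitalNonAssocRing A] [Module Φ A] [IsScalarTower Φ A A]
    [SMulCommClass Φ A A], IsRightAlternative A → ∀ a : ℕ → A, value f a ∈ alternativeCenter A

theorem value_map {Φ : Type u} [CommRing Φ] {A B : Type v} [NonUnitalNonAssocRing A]
    [Module Φ A] [IsScalarTower Φ A A] [SMulCommClass Φ A A] [NonUnitalNonAssocRing B]
    [Module Φ B] [IsScalarTower Φ B B] [SMulCommClass Φ B B] (θ : A →ₙₐ[Φ] B)
    (f : NAPoly Φ) (a : ℕ → A) : value f (fun i => θ (a i)) = θ (value f a) := by
  unfold value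
  have h : FreeNonUnitalNonAssocAlgebra.lift Φ (fun i => θ (a i)) =
      θ.comp (FreeNonUnitalNonAssocAlgebra.lift Φ a) := by
    apply FreeNonUnitalNonAssocAlgebra.hom_ext
    intro i
    rw [FreeNonUnitalNonAssocAlgebra.lift_of_apply]
    show _ = θ (FreeNonUnitalNonAssocAlgebra.lift Φ a _)
    rw [FreeNonUnitalNonAssocAlgebra.lift_of_apply]
  rw [h]
  rfl

/-- The auxiliary module `A × End(A) × A × A`. -/
structure Ext (Φ : Type u) (A : Type v) [CommRing Φ] [NonUnitalNonAssocRing A] [Module Φ A] where
  a : A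
  n : A →ₗ[Φ] A
  v : A
  w : A

namespace Ext

variable {Φ : Type u} {A : Type v} [CommRing Φ] [NonUnitalNonAssocRing A] [Module Φ A]

theorem ext' {x y : Ext Φ A} (h1 : x.a = y.a) (h2 : x.n = y.n) (h3 : x.v = y.v)
    (h4 : x.w = y.w) : x = y := by
  cases x; cases y; simp_all

instance : Zero (Ext Φ A) := ⟨⟨0, 0, 0, 0⟩⟩
instance : Add (Ext Φ A) := ⟨fun x y => ⟨x.a + y.a, x.n + y.n, x.v + y.v, x.w + y.w⟩⟩
instance : Neg (Ext Φ A) := ⟨fun x => ⟨-x.a, -x.n, -x.v, -x.w⟩⟩
instance : SMul Φ (Ext Φ A) := ⟨fun r x => ⟨r • x.a, r • x.n, r • x.v, r • x.w⟩⟩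

@[simp] theorem zero_a : (0 : Ext Φ A).a = 0 := rfl
@[simp] theorem zero_n : (0 : Ext Φ A).n = 0 := rfl
@[simp] theorem zero_v : (0 : Ext Φ A).v = 0 := rfl
@[simp] theorem zero_w : (0 : Ext Φ A).w = 0 := rfl
@[simp] theorem add_a (x y : Ext Φ A) : (x + y).a = x.a + y.a := rfl
@[simp] theorem add_n (x y : Ext Φ A) : (x + y).n = x.n + y.n := rfl
@[simp] theorem add_v (x y : Ext Φ A) : (x + y).v = x.v + y.v := rfl
@[simp] theorem add_w (x y : Ext Φ A) : (x + y).w = x.w + y.w := rfl
@[simp] theorem neg_a (x : Ext Φ A) : (-x).a = -x.a := rfl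
@[simp] theorem neg_n (x : Ext Φ A) : (-x).n = -x.n := rfl
@[simp] theorem neg_v (x : Ext Φ A) : (-x).v = -x.v := rfl
@[simp] theorem neg_w (x : Ext Φ A) : (-x).w = -x.w := rfl
@[simp] theorem smul_a (r : Φ) (x : Ext Φ A) : (r • x).a = r • x.a := rfl
@[simp] theorem smul_n (r : Φ) (x : Ext Φ A) : (r • x).n = r • x.n := rfl
@[simp] theorem smul_v (r : Φ) (x : Ext Φ A) : (r • x).v = r • x.v := rfl
@[simp] theorem smul_w (r : Φ) (x : Ext Φ A) : (r • x).w = r • x.w := rfl

instance : AddCommGroup (Ext Φ A) where
  add_assoc x y z := by apply ext' <;> simp [add_assoc]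
  zero_add x := by apply ext' <;> simp
  add_zero x := by apply ext' <;> simp
  nsmul := nsmulRec
  zsmul := zsmulRec
  neg_add_cancel x := by apply ext' <;> simp
  add_comm x y := by apply ext' <;> simp [add_comm]

instance : Module Φ (Ext Φ A) where
  one_smul x := by apply ext' <;> simp
  mul_smul r s x := by apply ext' <;> simp [mul_smul]
  smul_zero r := by apply ext' <;> simp
  smul_add r x y := by apply ext' <;> simp
  add_smul r s x := by apply ext' <;> simp [add_smul]
  zero_smul x := by apply ext' <;> simp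

variable [IsScalarTower Φ A A] [SMulCommClass Φ A A]

/-- The multiplication
`(a, n, v, w) (a', n', v', w') = (a a', (x ↦ n (x a')), v a', n' v)`. -/
instance : Mul (Ext Φ A) :=
  ⟨fun x y => ⟨x.a * y.a, x.n.comp (LinearMap.mulRight Φ y.a), x.v * y.a, y.n x.v⟩⟩

@[simp] theorem mul_a (x y : Ext Φ A) : (x * y).a = x.a * y.a := rfl
@[simp] theorem mul_n (x y : Ext Φ A) :
    (x * y).n = x.n.comp (LinearMap.mulRight Φ y.a) := rfl
@[simp] theorem mul_v (x y : Ext Φ A) : (x * y).v = x.v * y.a := rfl
@[simp] theorem mul_w (x y : Ext Φ A) : (x * y).w = y.n x.v := rfl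

instance : NonUnitalNonAssocRing (Ext Φ A) where
  left_distrib x y z := by
    apply ext'
    · simp [mul_add]
    · apply LinearMap.ext; intro t; simp [mul_add]
    · simp [mul_add]
    · simp
  right_distrib x y z := by
    apply ext'
    · simp [add_mul]
    · apply LinearMap.ext; intro t; simp
    · simp [add_mul]
    · simp
  zero_mul x := by apply ext' <;> simp
  mul_zero x := by
    apply ext'
    · simp
    · apply LinearMap.ext; intro t; simp
    · simp
    · simp

instance : IsScalarTower Φ (Ext Φ A) (Ext Φ A) := ⟨fun r x y => by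
  apply ext'
  · simp [smul_mul_assoc]
  · apply LinearMap.ext; intro t; simp
  · simp [smul_mul_assoc]
  · simp⟩

instance : SMulCommClass Φ (Ext Φ A) (Ext Φ A) := ⟨fun r x y => by
  apply ext'
  · simp [mul_smul_comm]
  · apply LinearMap.ext; intro t; simp [mul_smul_comm]
  · simp [mul_smul_comm]
  · simp⟩

theorem rightAlternative (h : IsRightAlternative A) : IsRightAlternative (Ext Φ A) := by
  have h' : ∀ x y : A, x * y * y = x * (y * y) := fun x y => sub_eq_zero.1 (h x y)
  intro x y
  unfold associator
  rw [sub_eq_zero]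
  apply ext'
  · simp [h']
  · apply LinearMap.ext; intro t; simp [h']
  · simp [h']
  · simp

/-- The embedding `a ↦ (a, 0, 0, 0)`. -/
def emb (Φ : Type u) (A : Type v) [CommRing Φ] [NonUnitalNonAssocRing A] [Module Φ A]
    [IsScalarTower Φ A A] [SMulCommClass Φ A A] : A →ₙₐ[Φ] Ext Φ A where
  toFun a := ⟨a, 0, 0, 0⟩
  map_smul' r a := by apply ext' <;> simp
  map_zero' := rfl
  map_add' a b := by apply ext' <;> simp
  map_mul' a b := by apply ext' <;> simp

/-- The embedding `a ↦ (a, 0, a, 0)`. -/
def diag (Φ : Type u) (A : Type v) [CommRing Φ] [NonUnitalNonAssocRing A] [Module Φ A]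
    [IsScalarTower Φ A A] [SMulCommClass Φ A A] : A →ₙₐ[Φ] Ext Φ A where
  toFun a := ⟨a, 0, a, 0⟩
  map_smul' r a := by apply ext' <;> simp
  map_zero' := rfl
  map_add' a b := by apply ext' <;> simp
  map_mul' a b := by apply ext' <;> simp

end Ext

/-- The unital hull of a right alternative algebra is right alternative. -/
theorem unitization_rightAlternative {Φ : Type u} {A : Type v} [CommRing Φ]
    [NonUnitalNonAssocRing A] [Module Φ A] [IsScalarTower Φ A A] [SMulCommClass Φ A A]
    (h : IsRightAlternative A) : IsRightAlternative (Unitization Φ A) := by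
  have h' : ∀ x y : A, x * y * y = x * (y * y) := fun x y => sub_eq_zero.1 (h x y)
  intro x y
  unfold associator
  rw [sub_eq_zero]
  apply Unitization.ext
  · simp [mul_assoc]
  · simp only [Unitization.snd_mul, Unitization.fst_mul, smul_add, mul_add, add_mul,
      smul_mul_assoc, mul_smul_comm, h', smul_smul]
    have e2 : y.fst * x.fst = x.fst * y.fst := by ring
    rw [e2]
    abel

/-- Key lemma for the right and the alternative centers: if `(v, n, f) = 0` in the extension
then `f` annihilates. -/
theorem eq_zero_of_assoc_right {Φ : Type u} {B : Type v} [CommRing Φ] [NonAssocRing B]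
    [Module Φ B] [IsScalarTower Φ B B] [SMulCommClass Φ B B] (c : B)
    (h : associator (⟨0, 0, 1, 0⟩ : Ext Φ B) ⟨0, LinearMap.id, 0, 0⟩ (Ext.emb Φ B c) = 0) :
    c = 0 := by
  have h2 := congrArg Ext.w (sub_eq_zero.1 h)
  simpa [Ext.emb] using h2.symm

/-- Key lemma for the left center. -/
theorem eq_zero_of_assoc_left {Φ : Type u} {B : Type v} [CommRing Φ] [NonAssocRing B]
    [Module Φ B] [IsScalarTower Φ B B] [SMulCommClass Φ B B] (c : B)
    (h : associator (Ext.diag Φ B c) (⟨1, 0, 0, 0⟩ : Ext Φ B) ⟨0, LinearMap.id, 0, 0⟩ = 0) :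
    c = 0 := by
  have h2 := congrArg Ext.w (sub_eq_zero.1 h)
  simpa [Ext.diag] using h2

section Unital

variable {Φ : Type u} [CommRing Φ] {A : Type (max u v)} [NonUnitalNonAssocRing A] [Module Φ A]
  [IsScalarTower Φ A A] [SMulCommClass Φ A A]

instance : IsScalarTower Φ (Unitization Φ A) (Unitization Φ A) := ⟨fun r x y => by
  apply Unitization.ext
  · simp [mul_assoc]
  · simp [smul_smul, smul_add, mul_comm, smul_mul_assoc]⟩

instance : SMulCommClass Φ (Unitization Φ A) (Unitization Φ A) := ⟨fun r x y => by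
  apply Unitization.ext
  · simp [mul_left_comm]
  · simp [smul_smul, smul_add, mul_comm, mul_smul_comm]⟩

/-- the inclusion into the unital hull -/
def inc (Φ : Type u) [CommRing Φ] (A : Type (max u v)) [NonUnitalNonAssocRing A] [Module Φ A]
    [IsScalarTower Φ A A] [SMulCommClass Φ A A] : A →ₙₐ[Φ] Unitization Φ A where
  toFun := Unitization.inr
  map_smul' r a := by apply Unitization.ext <;> simp
  map_zero' := rfl
  map_add' a b := by apply Unitization.ext <;> simp
  map_mul' a b := by apply Unitization.ext <;> simp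

/-- passing to the unital hull -/
theorem value_eq_zero_of_unital (f : NAPoly Φ) (a : ℕ → A)
    (h : value f (fun i => (Unitization.inr (a i) : Unitization Φ A)) = 0) : value f a = 0 := by
  have h1 := value_map (inc.{u, v} Φ A) f a
  have h2 : value f (fun i => (inc.{u, v} Φ A) (a i)) = 0 := h
  rw [h2] at h1
  have h3 : (Unitization.inr (value f a) : Unitization Φ A) = 0 := h1.symm
  have h4 := congrArg (fun t : Unitization Φ A => t.snd) h3
  simpa using h4

end Unital

theorem identity_of_rightCenter (Φ : Type u) [CommRing Φ] (f : NAPoly Φ)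
    (h : ValuesInRightCenter.{u, v} Φ f) : IsIdentity.{u, v} Φ f := by
  intro A _ _ _ _ hA a
  apply value_eq_zero_of_unital
  set b : ℕ → Unitization Φ A := fun i => Unitization.inr (a i) with hb
  have h1 := h (Ext Φ (Unitization Φ A)) (Ext.rightAlternative (unitization_rightAlternative hA))
    (fun i => Ext.emb Φ (Unitization Φ A) (b i)) ⟨0, 0, 1, 0⟩ ⟨0, LinearMap.id, 0, 0⟩
  rw [value_map] at h1
  exact eq_zero_of_assoc_right _ h1

theorem identity_of_leftCenter (Φ : Type u) [CommRing Φ] (f : NAPoly Φ)
    (h : ValuesInLeftCenter.{u, v} Φ f) : IsIdentity.{u, v} Φ f := by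
  intro A _ _ _ _ hA a
  apply value_eq_zero_of_unital
  set b : ℕ → Unitization Φ A := fun i => Unitization.inr (a i) with hb
  have h1 := h (Ext Φ (Unitization Φ A)) (Ext.rightAlternative (unitization_rightAlternative hA))
    (fun i => Ext.diag Φ (Unitization Φ A) (b i)) ⟨1, 0, 0, 0⟩ ⟨0, LinearMap.id, 0, 0⟩
  rw [value_map] at h1
  exact eq_zero_of_assoc_left _ h1

theorem identity_of_alternativeCenter (Φ : Type u) [CommRing Φ] (f : NAPoly Φ)
    (h : ValuesInAlternativeCenter.{u, v} Φ f) : IsIdentity.{u, v} Φ f := by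
  intro A _ _ _ _ hA a
  apply value_eq_zero_of_unital
  set b : ℕ → Unitization Φ A := fun i => Unitization.inr (a i) with hb
  have h1 := h (Ext Φ (Unitization Φ A)) (Ext.rightAlternative (unitization_rightAlternative hA))
    (fun i => Ext.emb Φ (Unitization Φ A) (b i)) ⟨0, 0, 1, 0⟩ ⟨0, LinearMap.id, 0, 0⟩
  rw [value_map] at h1
  obtain ⟨h2, h3⟩ := h1
  apply eq_zero_of_assoc_right (Φ := Φ)
  rw [← h3, ← h2]
  unfold associator
  rw [sub_eq_zero]
  apply Ext.ext'
  · simp [Ext.emb]
  · apply LinearMap.ext; intro t; simp [Ext.emb]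
  · simp [Ext.emb]
  · simp [Ext.emb]

end Pool.Agent.P09.RightAlt
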